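import Pool.Agent.W314.BA.Stm

/-!
# BA-KA: the kernels `kn x` are dominated by averages over intervals
-/

set_option autoImplicit false

open MeasureTheory Set Filter Topology Real
open scoped ENNReal NNReal

namespace Pool.Agent.W120.BA.KA

open Pool.Agent.W314.BA

/-- pointwise bound of the kernel by a dyadic sum -/
theorem kn_le (x : ℝ) (hx : 2 ≤ x) (n : ℤ) :
    kn x n ≤ ∑' j : ℕ, ENNReal.ofReal (4 * (1 / 4) ^ j / √(Real.log x)) *
      (if n ∈ Finset.Icc (-(⌊2 ^ j * √(Real.log x)⌋₊ : ℤ)) ⌊2 ^ j * √(Real.log x)⌋₊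
        then 1 else 0) := by
  have hL : 0 < Real.log x := Real.log_pos (by linarith)
  set s := √(Real.log x) with hs
  have hs0 : 0 < s := Real.sqrt_pos.2 hL
  have hsL : Real.log x = s ^ 2 := (Real.sq_sqrt hL.le).symm
  -- membership
  have hmem : ∀ j : ℕ, |(n : ℝ)| ≤ 2 ^ j * s →
      n ∈ Finset.Icc (-(⌊2 ^ j * s⌋₊ : ℤ)) ⌊2 ^ j * s⌋₊ := by
    intro j hj
    have h1 : (n.natAbs : ℝ) ≤ 2 ^ j * s := by
      rw [Nat.cast_natAbs, Int.cast_abs]; exact hj
    have h2 : n.natAbs ≤ ⌊2 ^ j * s⌋₊ := Nat.le_floor h1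
    rw [Finset.mem_Icc]
    omega
  have hex : ∃ j : ℕ, |(n : ℝ)| ≤ 2 ^ j * s := by
    obtain ⟨j, hj⟩ := pow_unbounded_of_one_lt (|(n : ℝ)| / s) (one_lt_two)
    refine ⟨j, ?_⟩
    rw [div_lt_iff₀ hs0] at hj
    exact hj.le
  classical
  obtain ⟨j, hj, hmin⟩ : ∃ j : ℕ, |(n : ℝ)| ≤ 2 ^ j * s ∧ ∀ i < j, ¬ |(n : ℝ)| ≤ 2 ^ i * s :=
    ⟨Nat.find hex, Nat.find_spec hex, fun i hi => Nat.find_min hex hi⟩
  refine le_trans ?_ (ENNReal.le_tsum j)
  rw [if_pos (hmem j hj), mul_one]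
  unfold kn
  rw [← hs]
  apply ENNReal.ofReal_le_ofReal
  rw [hsL]
  have h1 : 0 < s * (1 + (n : ℝ) ^ 2 / s ^ 2) := by positivity
  rcases Nat.eq_zero_or_pos j with h | h
  · subst h
    rw [pow_zero, mul_one, inv_eq_one_div, div_le_div_iff₀ h1 hs0]
    have : 0 ≤ (n : ℝ) ^ 2 / s ^ 2 := by positivity
    nlinarith
  · have h2 := hmin (j - 1) (by omega)
    rw [not_le] at h2
    have h3 : (2 : ℝ) ^ j = 2 * 2 ^ (j - 1) := by
      rw [← pow_succ']; congr 1; omega
    have h4 : (2 ^ (j - 1) * s) ^ 2 ≤ (n : ℝ) ^ 2 := by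
      rw [← sq_abs (n : ℝ)]
      exact pow_le_pow_left₀ (by positivity) h2.le 2
    have h5 : (4 : ℝ) ^ j = 4 * (2 ^ (j - 1)) ^ 2 := by
      rw [show (4 : ℝ) = 2 ^ 2 by norm_num, ← pow_mul, mul_comm 2 j, pow_mul, h3]
      ring
    have h6 : (4 : ℝ) ^ j / 4 ≤ (n : ℝ) ^ 2 / s ^ 2 := by
      rw [div_le_div_iff₀ (by norm_num) (by positivity), h5]
      nlinarith
    rw [inv_eq_one_div, div_le_div_iff₀ h1 hs0]
    have h7 : (1 / 4 : ℝ) ^ j * 4 ^ j = 1 := by
      rw [← mul_pow]; norm_num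
    have h8 : (0 : ℝ) < (1 / 4) ^ j := by positivity
    have h9 : (1 : ℝ) ≤ 4 * (1 / 4) ^ j * (1 + (n : ℝ) ^ 2 / s ^ 2) := by
      have h10 : (1 / 4 : ℝ) ^ j * (4 ^ j / 4) ≤ (1 / 4) ^ j * ((n : ℝ) ^ 2 / s ^ 2) :=
        mul_le_mul_of_nonneg_left h6 h8.le
      nlinarith
    calc 1 * s = s * 1 := by ring
      _ ≤ s * (4 * (1 / 4) ^ j * (1 + (n : ℝ) ^ 2 / s ^ 2)) :=
          mul_le_mul_of_nonneg_left h9 hs0.le
      _ = _ := by ring

theorem main : KnAvStmt := by
  refine ⟨ENNReal.ofReal (8 + 4 / √(Real.log 2)) * (1 - 2⁻¹)⁻¹, ?_, ?_⟩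
  · apply ENNReal.mul_ne_top ENNReal.ofReal_ne_top
    rw [ENNReal.one_sub_inv_two, inv_inv]
    exact ENNReal.ofNat_ne_top
  · intro φ l hφ x hx
    have hL : 0 < Real.log x := Real.log_pos (by linarith)
    have hL2 : 0 < Real.log 2 := Real.log_pos (by norm_num)
    have hLL : √(Real.log 2) ≤ √(Real.log x) :=
      Real.sqrt_le_sqrt (Real.log_le_log (by norm_num) hx)
    set s := √(Real.log x) with hs
    have hs0 : 0 < s := Real.sqrt_pos.2 hL
    have ht0 : 0 < √(Real.log 2) := Real.sqrt_pos.2 hL2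
    let N : ℕ → ℕ := fun j => ⌊2 ^ j * s⌋₊
    let a : ℕ → ℝ≥0∞ := fun j => ENNReal.ofReal (4 * (1 / 4) ^ j / s)
    have h1 : ∀ n : ℤ, kn x n * φ n ≤
        ∑' j : ℕ, a j * ((if n ∈ Finset.Icc (-(N j : ℤ)) (N j) then 1 else 0) * φ n) := by
      intro n
      have := mul_le_mul_left (kn_le x hx n) (φ n)
      rw [← ENNReal.tsum_mul_right] at this
      refine this.trans (le_of_eq ?_)
      refine tsum_congr fun j => ?_
      rw [mul_assoc]
    calc ∑' n : ℤ, kn x n * φ n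
        ≤ ∑' n : ℤ, ∑' j : ℕ, a j * ((if n ∈ Finset.Icc (-(N j : ℤ)) (N j) then 1 else 0) * φ n) :=
          ENNReal.tsum_le_tsum h1
      _ = ∑' j : ℕ, ∑' n : ℤ, a j * ((if n ∈ Finset.Icc (-(N j : ℤ)) (N j) then 1 else 0) * φ n) :=
          ENNReal.tsum_comm
      _ = ∑' j : ℕ, a j * ∑ n ∈ Finset.Icc (-(N j : ℤ)) (N j), φ n := by
          refine tsum_congr fun j => ?_
          rw [ENNReal.tsum_mul_left]
          congr 1
          rw [tsum_eq_sum (s := Finset.Icc (-(N j : ℤ)) (N j))]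
          · refine Finset.sum_congr rfl fun n hn => ?_
            rw [if_pos hn, one_mul]
          · intro n hn
            rw [if_neg hn, zero_mul]
      _ ≤ ∑' j : ℕ, (ENNReal.ofReal (8 + 4 / √(Real.log 2)) * l) * (2⁻¹) ^ j := by
          refine ENNReal.tsum_le_tsum fun j => ?_
          refine (mul_le_mul_right (hφ (N j)) (a j)).trans ?_
          have h2 : (2 * (N j : ℝ≥0∞) + 1) ≤ ENNReal.ofReal (2 * (2 ^ j * s) + 1) := by
            have h3 : (N j : ℝ) ≤ 2 ^ j * s := Nat.floor_le (by positivity)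
            have h4 : (2 * (N j : ℝ≥0∞) + 1) = ENNReal.ofReal (2 * (N j : ℝ) + 1) := by
              rw [ENNReal.ofReal_add (by positivity) (by positivity),
                ENNReal.ofReal_mul (by positivity), ENNReal.ofReal_natCast]
              simp
            rw [h4]
            exact ENNReal.ofReal_le_ofReal (by linarith)
          have h5 : a j * ENNReal.ofReal (2 * (2 ^ j * s) + 1) ≤
              ENNReal.ofReal (8 + 4 / √(Real.log 2)) * (2⁻¹) ^ j := by
            have h6 : ((2 : ℝ≥0∞)⁻¹) ^ j = ENNReal.ofReal ((1 / 2) ^ j) := by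
              rw [ENNReal.ofReal_pow (by norm_num)]
              congr 1
              rw [one_div, ENNReal.ofReal_inv_of_pos (by norm_num)]
              simp
            rw [h6]
            simp only [a]
            rw [← ENNReal.ofReal_mul (by positivity), ← ENNReal.ofReal_mul (by positivity)]
            apply ENNReal.ofReal_le_ofReal
            have h7 : (1 / 4 : ℝ) ^ j = (1 / 2) ^ j * (1 / 2) ^ j := by
              rw [← mul_pow]; norm_num
            have h8 : (1 / 2 : ℝ) ^ j * 2 ^ j = 1 := by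
              rw [← mul_pow]; norm_num
            have h9 : (1 / 2 : ℝ) ^ j ≤ 1 := pow_le_one₀ (by norm_num) (by norm_num)
            have h10 : (0 : ℝ) < (1 / 2) ^ j := by positivity
            have h11 : 4 * (1 / 4) ^ j / s * (2 * (2 ^ j * s) + 1) =
                8 * (1 / 2) ^ j * ((1 / 2 : ℝ) ^ j * 2 ^ j) + (1 / 2) ^ j * ((1 / 2) ^ j * (4 / s)) := by
              rw [h7]
              field_simp
              ring
            rw [h11, h8]
            have h12 : 4 / s ≤ 4 / √(Real.log 2) := by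
              apply div_le_div_of_nonneg_left (by norm_num) ht0 hLL
            have h13 : 0 ≤ 4 / s := by positivity
            have h14 : (1 / 2 : ℝ) ^ j * (4 / s) ≤ 4 / √(Real.log 2) := by
              calc (1 / 2 : ℝ) ^ j * (4 / s) ≤ 1 * (4 / s) := mul_le_mul_of_nonneg_right h9 h13
                _ ≤ _ := by linarith
            nlinarith [mul_le_mul_of_nonneg_left h14 h10.le]
          calc a j * (l * (2 * (N j : ℝ≥0∞) + 1)) = (a j * (2 * (N j : ℝ≥0∞) + 1)) * l := by ring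
            _ ≤ (a j * ENNReal.ofReal (2 * (2 ^ j * s) + 1)) * l := by gcongr
            _ ≤ (ENNReal.ofReal (8 + 4 / √(Real.log 2)) * (2⁻¹) ^ j) * l := by gcongr
            _ = _ := by ring
      _ = ENNReal.ofReal (8 + 4 / √(Real.log 2)) * (1 - 2⁻¹)⁻¹ * l := by
          rw [ENNReal.tsum_mul_left, ENNReal.tsum_geometric]
          ring

end Pool.Agent.W120.BA.KA
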