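import Pool.Agent.W314.BA.Stm

/-!
# BA-NG: no spectral gap on the product
-/

set_option autoImplicit false

open MeasureTheory Set Filter Topology Real
open scoped ENNReal NNReal

namespace Pool.Agent.W120.BA.NG

open Pool.Agent.W314.BA

theorem fourier_shift (k : ℤ) (z w : T) : fourier k (z + w) = fourier k z * fourier k w := by
  rw [fourier_apply, fourier_apply, fourier_apply, zsmul_add, AddCircle.toCircle_add,
    Circle.coe_mul]

theorem fourier_norm_one (k : ℤ) (z : T) : ‖fourier k z‖ = 1 := by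
  rw [fourier_apply]; exact Circle.norm_coe _

theorem fourier_rot (k m n : ℤ) (a : ℝ) :
    ‖fourier k (n • (a : T)) - 1‖ ≤ 2 * π * (|(n : ℝ)| * |k * a - m|) := by
  have h1 : (n • (a : T)) = (((n : ℝ) * a : ℝ) : T) := by
    rw [← zsmul_eq_mul, AddCircle.coe_zsmul]
  rw [h1, fourier_coe_apply]
  have h2 : Complex.exp (2 * π * Complex.I * k * (((n : ℝ) * a : ℝ) : ℂ) / ((1 : ℝ) : ℂ)) =
      Complex.exp (Complex.I * ((2 * π * (n * (k * a - m)) : ℝ) : ℂ)) := by
    have h3 : 2 * π * Complex.I * k * (((n : ℝ) * a : ℝ) : ℂ) / ((1 : ℝ) : ℂ) =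
        Complex.I * ((2 * π * (n * (k * a - m)) : ℝ) : ℂ) + ((n * m : ℤ) : ℂ) * (2 * π * Complex.I) := by
      push_cast
      ring
    rw [h3, Complex.exp_add, Complex.exp_int_mul_two_pi_mul_I, mul_one]
  rw [h2]
  refine (norm_exp_I_mul_ofReal_sub_one_le).trans ?_
  rw [Real.norm_eq_abs, abs_mul, abs_mul, abs_mul, abs_of_pos Real.pi_pos, abs_two]

theorem fourier_int {k : ℤ} (hk : k ≠ 0) : ∫ z, fourier k z ∂tm = 0 := by
  unfold tm
  exact integral_eq_zero_of_add_right_eq_neg (μ := AddCircle.haarAddCircle)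
    (fourier_add_half_inv_index hk Fact.out)

instance : IsProbabilityMeasure tm := by unfold tm; infer_instance

theorem cont_re (k : ℤ) : Continuous fun z : T => (fourier k z).re :=
  Complex.continuous_re.comp (fourier k).continuous

theorem int_re {k : ℤ} (hk : k ≠ 0) : ∫ z, (fourier k z).re ∂tm = 0 := by
  have h1 : Integrable (fun z : T => fourier k z) tm :=
    Integrable.of_bound (fourier k).continuous.aestronglyMeasurable 1
      (Filter.Eventually.of_forall fun z => (fourier_norm_one k z).le)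
  have h2 := integral_re h1
  have h3 : ∫ z, (fourier k z).re ∂tm = ∫ z, RCLike.re (fourier k z) ∂tm := rfl
  rw [h3, h2, fourier_int hk]
  simp

theorem re_sq (k : ℤ) (z : T) : (fourier k z).re ^ 2 = 1 / 2 + 1 / 2 * (fourier (k + k) z).re := by
  have h1 := fourier_norm_one k z
  have h2 : (fourier k z).re ^ 2 + (fourier k z).im ^ 2 = 1 := by
    have := Complex.sq_norm (fourier k z)
    rw [h1, Complex.normSq_apply] at this
    linarith
  have h3 : fourier (k + k) z = fourier k z * fourier k z := fourier_add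
  rw [h3, Complex.mul_re]
  linarith

theorem int_sq {k : ℤ} (hk : k ≠ 0) : ∫ z, (fourier k z).re ^ 2 ∂tm = 1 / 2 := by
  simp_rw [re_sq]
  have hi : Integrable (fun z : T => (fourier (k + k) z).re) tm :=
    Integrable.of_bound (cont_re _).aestronglyMeasurable 1
      (Filter.Eventually.of_forall fun z => by
        rw [Real.norm_eq_abs]
        exact (Complex.abs_re_le_norm _).trans (fourier_norm_one _ z).le)
  rw [integral_add (integrable_const _) (hi.const_mul _), integral_const_mul,
    int_re (by omega), integral_const]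
  simp

theorem main : NoGapXStmt := by
  intro Y _ _ μ c hS a _ R ε hε
  haveI := hS.prob
  obtain ⟨C, hC⟩ := hS.bdd R
  -- choose δ
  have hpi := Real.pi_pos
  set B : ℝ := max (C : ℝ) 1 with hB
  have hB1 : 1 ≤ B := le_max_right _ _
  have hBC : (C : ℝ) ≤ B := le_max_left _ _
  obtain ⟨δ, hδ, hδε⟩ : ∃ δ : ℝ, 0 < δ ∧ (2 * π * (B * δ)) ^ 2 ≤ ε * (1 / 2) := by
    refine ⟨√(ε / 2) / (2 * π * B), by positivity, ?_⟩
    have h1 : 2 * π * (B * (√(ε / 2) / (2 * π * B))) = √(ε / 2) := by
      field_simp
    rw [h1, Real.sq_sqrt (by positivity)]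
    linarith
  obtain ⟨N, hN⟩ := exists_nat_gt (1 / δ)
  have hN0 : 0 < N := by
    have : (0 : ℝ) < N := lt_trans (by positivity) hN
    exact_mod_cast this
  obtain ⟨m, k, hk, -, hkm⟩ := Real.exists_int_int_abs_mul_sub_le a hN0
  have hkm' : |k * a - m| ≤ δ := by
    refine hkm.trans ?_
    rw [div_le_iff₀ (by positivity)]
    rw [div_lt_iff₀ hδ] at hN
    nlinarith
  have hk0 : k ≠ 0 := hk.ne'
  have hbd : ∀ z : T, ‖(fourier k z).re‖ ≤ 1 := fun z => by
    rw [Real.norm_eq_abs]
    exact (Complex.abs_re_le_norm _).trans (fourier_norm_one _ z).le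
  have hsq : ∫ p : Y × T, (fourier k p.2).re ^ 2 ∂(μ.prod tm) = 1 / 2 := by
    rw [integral_fun_snd (fun z : T => (fourier k z).re ^ 2), int_sq hk0]
    simp
  refine ⟨fun p => (fourier k p.2).re, ?_, ?_, ?_, ?_⟩
  · exact MemLp.of_bound ((cont_re k).measurable.comp measurable_snd).aestronglyMeasurable 1
      (Filter.Eventually.of_forall fun p => hbd p.2)
  · rw [integral_fun_snd (fun z : T => (fourier k z).re), int_re hk0]
    simp
  · rw [hsq]; norm_num
  · intro g hg
    rw [hsq]
    refine le_trans ?_ hδε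
    have h1 : ∀ p : Y × T, ‖((fourier k (p.2 + c g p.1 • (a : T))).re - (fourier k p.2).re) ^ 2‖ ≤
        (2 * π * (B * δ)) ^ 2 := by
      intro p
      rw [norm_pow]
      refine pow_le_pow_left₀ (norm_nonneg _) ?_ 2
      rw [← Complex.sub_re, Real.norm_eq_abs]
      refine (Complex.abs_re_le_norm _).trans ?_
      rw [fourier_shift]
      have h2 : fourier k p.2 * fourier k (c g p.1 • (a : T)) - fourier k p.2 =
          fourier k p.2 * (fourier k (c g p.1 • (a : T)) - 1) := by ring
      rw [h2, norm_mul, fourier_norm_one, one_mul]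
      refine (fourier_rot k m (c g p.1) a).trans ?_
      have h3 : |((c g p.1 : ℤ) : ℝ)| ≤ B := by
        refine le_trans ?_ hBC
        have := hC g hg p.1
        exact_mod_cast this
      have h4 : |((c g p.1 : ℤ) : ℝ)| * |k * a - m| ≤ B * δ :=
        mul_le_mul h3 hkm' (abs_nonneg _) (by linarith)
      exact mul_le_mul_of_nonneg_left h4 (by positivity)
    have h2 := norm_integral_le_of_norm_le_const (μ := μ.prod tm)
      (Filter.Eventually.of_forall h1)
    refine (le_abs_self _).trans (h2.trans (le_of_eq ?_))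
    simp

end Pool.Agent.W120.BA.NG
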