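import Pool.Agent.W314.BA.Stm

/-!
# BA-SN: nontriviality of the sheet function
-/

set_option autoImplicit false

open Real Set

namespace Pool.Agent.W120.BA.SN

open Pool.Agent.W314.BA

noncomputable section

/-- the element -/
def gam : G := ⟨!![2, -√3; -√3, 2], by
  rw [Matrix.det_fin_two_of]
  have h : √3 * √3 = 3 := Real.mul_self_sqrt (by norm_num)
  linarith [h]⟩

theorem g00 : gam.1 0 0 = 2 := rfl
theorem g01 : gam.1 0 1 = -√3 := rfl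
theorem g10 : gam.1 1 0 = -√3 := rfl
theorem g11 : gam.1 1 1 = 2 := rfl

theorem hh_gam : hh gam = 7 := by
  rw [hh_eq, g00, g01, g10, g11]
  have h : √3 ^ 2 = 3 := Real.sq_sqrt (by norm_num)
  rw [neg_sq, h]
  norm_num

theorem lam_gam (v : ℤ × ℤ × ℤ) : Lam gam v = ((42 * v.1 + 24 * v.2.1 : ℤ) : ℝ) := by
  unfold Lam
  rw [g00, g01, g10, g11]
  have h : √3 ^ 2 = 3 := Real.sq_sqrt (by norm_num)
  push_cast
  linear_combination (8 * (v.2.1 : ℝ) + 6 * v.1) * h + 0 * h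

/-- the integer version -/
def fz (v : ℤ × ℤ × ℤ) : ℤ :=
  (if (v.2.1 ^ 2 + v.2.2 ^ 2 = 1 + 3 * v.1 ^ 2 ∧ v.2.1 % 6 = 1) ∧ 0 < 42 * v.1 + 24 * v.2.1
    then 1 else 0) -
  (if (v.2.1 ^ 2 + v.2.2 ^ 2 = 1 + 3 * v.1 ^ 2 ∧ v.2.1 % 6 = 1) ∧ 0 < v.1 then 1 else 0)

theorem wal_gam (v : ℤ × ℤ × ℤ) : wal gam v = fz v := by
  have e1 : (v ∈ Vset ∧ 0 < Lam gam v) ↔
      ((v.2.1 ^ 2 + v.2.2 ^ 2 = 1 + 3 * v.1 ^ 2 ∧ v.2.1 % 6 = 1) ∧
        0 < 42 * v.1 + 24 * v.2.1) := by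
    rw [lam_gam, Int.cast_pos]
    rfl
  have e2 : (v ∈ Vset ∧ 0 < v.1) ↔
      ((v.2.1 ^ 2 + v.2.2 ^ 2 = 1 + 3 * v.1 ^ 2 ∧ v.2.1 % 6 = 1) ∧ 0 < v.1) := Iff.rfl
  unfold wal fz
  congr 1
  · by_cases h : (v.2.1 ^ 2 + v.2.2 ^ 2 = 1 + 3 * v.1 ^ 2 ∧ v.2.1 % 6 = 1) ∧
        0 < 42 * v.1 + 24 * v.2.1
    · rw [if_pos h, if_pos (e1.2 h)]
    · rw [if_neg h, if_neg (fun h' => h (e1.1 h'))]
  · by_cases h : (v.2.1 ^ 2 + v.2.2 ^ 2 = 1 + 3 * v.1 ^ 2 ∧ v.2.1 % 6 = 1) ∧ 0 < v.1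
    · rw [if_pos h, if_pos (e2.2 h)]
    · rw [if_neg h, if_neg (fun h' => h (e2.1 h'))]

/-- the box -/
def box : Finset (ℤ × ℤ × ℤ) := Finset.Icc (-4) 4 ×ˢ (Finset.Icc (-7) 7 ×ˢ Finset.Icc (-7) 7)

theorem box_sum : ∑ v ∈ box, fz v = 1 := by
  decide +kernel

theorem main (hW : WalStmt) : SgNeStmt := by
  refine ⟨gam, ⟨2, 0, 0, -1, by norm_num, ?_, ?_, ?_, ?_⟩, ?_⟩
  · rw [g00]; push_cast; ring
  · rw [g01]; push_cast; ring
  · rw [g10]; push_cast; ring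
  · rw [g11]; push_cast; ring
  · have h : sg gam = ∑ v ∈ box, wal gam v := by
      unfold sg
      apply finsum_eq_sum_of_support_subset
      intro v hv
      rw [Function.mem_support] at hv
      by_cases h1 : v ∈ Vset
      · have h2 : ¬ (hh gam ^ 2 ≤ 3 * (v.1 : ℝ) ^ 2) := fun h => hv (hW gam v h1 h)
        rw [hh_gam, not_le] at h2
        have h3 : 3 * v.1 ^ 2 < 49 := by
          have : (3 * (v.1 : ℝ) ^ 2) < 49 := by norm_num at h2 ⊢; exact h2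
          exact_mod_cast this
        have h4 := h1.1
        have h5 : -4 ≤ v.1 ∧ v.1 ≤ 4 := ⟨by nlinarith, by nlinarith⟩
        have h6 : v.2.1 ^ 2 + v.2.2 ^ 2 ≤ 49 := by rw [h4]; linarith
        have h7 : -7 ≤ v.2.1 ∧ v.2.1 ≤ 7 := ⟨by nlinarith [sq_nonneg v.2.2],
          by nlinarith [sq_nonneg v.2.2]⟩
        have h8 : -7 ≤ v.2.2 ∧ v.2.2 ≤ 7 := ⟨by nlinarith [sq_nonneg v.2.1],
          by nlinarith [sq_nonneg v.2.1]⟩
        simp only [box, Finset.coe_product, Finset.coe_Icc, Set.mem_prod, Set.mem_Icc]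
        exact ⟨h5, h7, h8⟩
      · exfalso
        apply hv
        unfold wal
        rw [if_neg (fun h => h1 h.1), if_neg (fun h => h1 h.1)]
        rfl
    rw [h, Finset.sum_congr rfl (fun v _ => wal_gam v), box_sum]
    exact one_ne_zero

end

end Pool.Agent.W120.BA.SN
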